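import Mathlib
import Pool.Agent.R739.RD.Chi

/-!
# Windows of digits in an algebraic base without conjugates on the unit circle
-/

set_option autoImplicit false

open Finset Filter Topology Polynomial
open scoped Real

namespace Pool.Agent.R739.RP

open Pool.Agent.R739.RD

/-- algebraic numbers without conjugates on the unit circle -/
def Hyp (β : ℝ) : Prop :=
  IsAlgebraic ℚ β ∧ ∀ z : ℂ, aeval z (minpoly ℚ β) = 0 → ‖z‖ ≠ 1

/-- the shift -/
noncomputable def E : Module.End ℂ (ℕ → ℂ) := LinearMap.funLeft ℂ ℂ Nat.succ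

lemma E_apply (x : ℕ → ℂ) (i : ℕ) : E x i = x (i + 1) := rfl

lemma E_pow (m : ℕ) : ∀ (x : ℕ → ℂ) (i : ℕ), (E ^ m) x i = x (i + m) := by
  induction m with
  | zero => intro x i; simp
  | succ m ih =>
    intro x i
    rw [pow_succ, Module.End.mul_apply, ih, E_apply]
    rfl

/-- the product of the linear factors -/
noncomputable def Q (R : List ℂ) : Polynomial ℂ := (R.map fun z => X - C z).prod

lemma op_apply (z : ℂ) (x : ℕ → ℂ) (i : ℕ) : (aeval E (X - C z)) x i = x (i + 1) - z * x i := by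
  rw [map_sub, aeval_X, aeval_C]
  rfl

lemma Q_cons (z : ℂ) (R : List ℂ) (x : ℕ → ℂ) :
    aeval E (Q (z :: R)) x = aeval E (Q R) (aeval E (X - C z) x) := by
  unfold Q
  rw [List.map_cons, List.prod_cons, mul_comm, map_mul, Module.End.mul_apply]

lemma Q_nil (x : ℕ → ℂ) : aeval E (Q []) x = x := by
  unfold Q
  simp

lemma op_bound (z : ℂ) (x : ℕ → ℂ) (B : ℝ) (hx : ∀ i, ‖x i‖ ≤ B) (i : ℕ) :
    ‖(aeval E (X - C z)) x i‖ ≤ (1 + ‖z‖) * B := by
  rw [op_apply]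
  refine (norm_sub_le _ _).trans ?_
  rw [norm_mul]
  have h2 := hx (i + 1)
  have h4 : ‖z‖ * ‖x i‖ ≤ ‖z‖ * B := mul_le_mul_of_nonneg_left (hx i) (norm_nonneg _)
  linarith

/-- contracting factors -/
lemma back_in (θ0 θ : ℝ) (h0 : 0 < θ0) (hθ : θ0 < θ) (hθ1 : θ < 1) (z : ℂ) (hz : ‖z‖ ≤ θ0)
    (C1 B : ℝ) (hC1 : 0 ≤ C1) (hB : 0 ≤ B) (x : ℕ → ℂ) (L : ℕ) (hx : ‖x 0‖ ≤ B)
    (h : ∀ i < L, ‖x (i + 1) - z * x i‖ ≤ C1 * (θ ^ i + θ ^ (L - i))) :
    ∀ i ≤ L, ‖x i‖ ≤ (B + C1 / (θ - θ0)) * (θ ^ i + θ ^ (L - i)) := by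
  have hd : 0 < θ - θ0 := by linarith
  have hθp : 0 < θ := by linarith
  have hC' : 0 ≤ C1 / (θ - θ0) := by positivity
  have hC'1 : C1 ≤ (B + C1 / (θ - θ0)) * (θ - θ0) := by
    have e : (B + C1 / (θ - θ0)) * (θ - θ0) = B * (θ - θ0) + C1 := by
      field_simp
    rw [e]
    have : 0 ≤ B * (θ - θ0) := by positivity
    linarith
  set C' : ℝ := B + C1 / (θ - θ0) with hC'd
  have hC'0 : 0 ≤ C' := by positivity
  intro i
  induction i with
  | zero =>
    intro _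
    rw [pow_zero]
    have h1 : 0 ≤ θ ^ (L - 0) := by positivity
    have h2 : C' * 1 ≤ C' * (1 + θ ^ (L - 0)) := mul_le_mul_of_nonneg_left (by linarith) hC'0
    linarith
  | succ i ihi =>
    intro hi
    have h3 := ihi (by omega)
    have h4 := h i (by omega)
    have h5 : ‖x (i + 1)‖ ≤ ‖x (i + 1) - z * x i‖ + ‖z * x i‖ := by
      have := norm_add_le (x (i + 1) - z * x i) (z * x i)
      rwa [sub_add_cancel] at this
    rw [norm_mul] at h5
    set w : ℝ := θ ^ i + θ ^ (L - i) with hw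
    have hw0 : 0 ≤ w := by positivity
    have h6 : ‖z‖ * ‖x i‖ ≤ θ0 * (C' * w) := mul_le_mul hz h3 (norm_nonneg _) h0.le
    have h7 : C1 * w ≤ (C' * (θ - θ0)) * w := mul_le_mul_of_nonneg_right hC'1 hw0
    have h8 : θ * w ≤ θ ^ (i + 1) + θ ^ (L - (i + 1)) := by
      have e1 : θ ^ (L - i) = θ ^ (L - (i + 1)) * θ := by
        rw [← pow_succ]
        congr 1
        omega
      have h9 : 0 ≤ θ ^ (L - (i + 1)) := by positivity
      have h10 : θ * θ ^ (L - i) ≤ θ ^ (L - (i + 1)) := by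
        rw [e1]
        have h11 : θ * θ ≤ 1 := by nlinarith
        have h12 := mul_le_mul_of_nonneg_left h11 h9
        linarith
      calc θ * w = θ ^ (i + 1) + θ * θ ^ (L - i) := by rw [hw]; ring
        _ ≤ _ := by linarith
    calc ‖x (i + 1)‖ ≤ C1 * w + θ0 * (C' * w) := by linarith
      _ ≤ (C' * (θ - θ0)) * w + θ0 * (C' * w) := by linarith
      _ = C' * (θ * w) := by ring
      _ ≤ C' * (θ ^ (i + 1) + θ ^ (L - (i + 1))) := mul_le_mul_of_nonneg_left h8 hC'0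

/-- expanding factors -/
lemma back_out (θ0 θ : ℝ) (h0 : 0 < θ0) (hθ : θ0 < θ) (hθ1 : θ < 1) (z : ℂ) (hz : 1 ≤ θ0 * ‖z‖)
    (C1 B : ℝ) (hC1 : 0 ≤ C1) (hB : 0 ≤ B) (x : ℕ → ℂ) (L : ℕ) (hx : ‖x L‖ ≤ B)
    (h : ∀ i < L, ‖x (i + 1) - z * x i‖ ≤ C1 * (θ ^ i + θ ^ (L - i))) :
    ∀ j ≤ L, ‖x (L - j)‖ ≤ (B + C1 / (θ - θ0)) * (θ ^ (L - j) + θ ^ j) := by
  have hd : 0 < θ - θ0 := by linarith
  have hθp : 0 < θ := by linarith
  have hC' : 0 ≤ C1 / (θ - θ0) := by positivity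
  have hC'1 : C1 ≤ (B + C1 / (θ - θ0)) * (θ - θ0) := by
    have e : (B + C1 / (θ - θ0)) * (θ - θ0) = B * (θ - θ0) + C1 := by
      field_simp
    rw [e]
    have : 0 ≤ B * (θ - θ0) := by positivity
    linarith
  set C' : ℝ := B + C1 / (θ - θ0) with hC'd
  have hC'0 : 0 ≤ C' := by positivity
  intro j
  induction j with
  | zero =>
    intro _
    rw [pow_zero, Nat.sub_zero]
    have h1 : 0 ≤ θ ^ L := by positivity
    have h2 : C' * 1 ≤ C' * (θ ^ L + 1) := mul_le_mul_of_nonneg_left (by linarith) hC'0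
    linarith
  | succ j ih =>
    intro hj
    have h3 := ih (by omega)
    obtain ⟨i, hi⟩ : ∃ i, i = L - (j + 1) := ⟨_, rfl⟩
    have hi1 : L - j = i + 1 := by omega
    have hi2 : L - i = j + 1 := by omega
    have h4 := h i (by omega)
    rw [hi1] at h3
    rw [hi2] at h4
    rw [← hi]
    have h5 : ‖z‖ * ‖x i‖ ≤ ‖x (i + 1)‖ + ‖x (i + 1) - z * x i‖ := by
      rw [← norm_mul]
      have := norm_sub_le (x (i + 1)) (x (i + 1) - z * x i)
      rwa [sub_sub_cancel] at this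
    have h6 : ‖x i‖ ≤ θ0 * (‖z‖ * ‖x i‖) := by
      have := mul_le_mul_of_nonneg_right hz (norm_nonneg (x i))
      linarith
    have h7 : θ0 * (‖z‖ * ‖x i‖) ≤ θ0 * (C' * (θ ^ (i + 1) + θ ^ j) +
        C1 * (θ ^ i + θ ^ (j + 1))) := mul_le_mul_of_nonneg_left (by linarith) h0.le
    have ha : 0 ≤ θ ^ i := by positivity
    have hb : 0 ≤ θ ^ j := by positivity
    set a := θ ^ i with had
    set b := θ ^ j with hbd
    have e1 : θ ^ (i + 1) = a * θ := pow_succ θ i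
    have e2 : θ ^ (j + 1) = b * θ := pow_succ θ j
    rw [e1, e2] at h7
    rw [e2]
    -- need: `θ0 (C' (a θ + b) + C1 (a + b θ)) ≤ C' (a + b θ)`
    have h8 : C1 * (a + b * θ) ≤ C' * (θ - θ0) * (a + b * θ) :=
      mul_le_mul_of_nonneg_right hC'1 (by positivity)
    have h9 : θ0 * (C' * (a * θ + b) + C' * (θ - θ0) * (a + b * θ)) ≤ C' * (a + b * θ) := by
      have h10 : θ0 * ((a * θ + b) + (θ - θ0) * (a + b * θ)) ≤ a + b * θ := by
        have p1 : θ0 * (θ + (θ - θ0)) ≤ 1 := by nlinarith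
        have p2 : θ0 * (1 + (θ - θ0) * θ) ≤ θ := by
          have h11 : θ0 * θ ≤ 1 := by nlinarith
          have h12 := mul_le_mul_of_nonneg_left h11 hd.le
          linarith
        have q1 := mul_le_mul_of_nonneg_right p1 ha
        have q2 := mul_le_mul_of_nonneg_right p2 hb
        nlinarith
      calc _ = C' * (θ0 * ((a * θ + b) + (θ - θ0) * (a + b * θ))) := by ring
        _ ≤ _ := mul_le_mul_of_nonneg_left h10 hC'0
    have h11 : θ0 * (C' * (a * θ + b) + C1 * (a + b * θ)) ≤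
        θ0 * (C' * (a * θ + b) + C' * (θ - θ0) * (a + b * θ)) :=
      mul_le_mul_of_nonneg_left (by linarith) h0.le
    linarith

lemma back (θ0 θ : ℝ) (h0 : 0 < θ0) (hθ : θ0 < θ) (hθ1 : θ < 1) (R : List ℂ) :
    (∀ z ∈ R, ‖z‖ ≤ θ0 ∨ 1 ≤ θ0 * ‖z‖) → ∀ Cc B : ℝ, 0 ≤ Cc → 0 ≤ B → ∃ C' : ℝ, 0 ≤ C' ∧
      ∀ (x : ℕ → ℂ) (L : ℕ), (∀ i, ‖x i‖ ≤ B) →
      (∀ i < L, ‖aeval E (Q R) x i‖ ≤ Cc * (θ ^ i + θ ^ (L - i))) →
      ∀ i < L, ‖x i‖ ≤ C' * (θ ^ i + θ ^ (L - i)) := by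
  induction R with
  | nil =>
    intro _ Cc B hC hB
    refine ⟨Cc, hC, fun x T _ h i hi => ?_⟩
    have := h i hi
    rwa [Q_nil] at this
  | cons z R ih =>
    intro hR Cc B hC hB
    have hz := hR z List.mem_cons_self
    obtain ⟨C1, hC1, h1⟩ := ih (fun w hw => hR w (List.mem_cons_of_mem z hw)) Cc ((1 + ‖z‖) * B)
      hC (by positivity)
    have hd : 0 < θ - θ0 := by linarith
    refine ⟨B + C1 / (θ - θ0), by positivity, fun x L hx h => ?_⟩
    have h2 : ∀ i < L, ‖x (i + 1) - z * x i‖ ≤ C1 * (θ ^ i + θ ^ (L - i)) := by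
      intro i hi
      rw [← op_apply]
      refine h1 _ L (op_bound z x B hx) (fun i hi => ?_) i hi
      rw [← Q_cons]
      exact h i hi
    rcases hz with hz | hz
    · intro i hi
      exact back_in θ0 θ h0 hθ hθ1 z hz C1 B hC1 hB x L (hx 0) h2 i hi.le
    · intro i hi
      have h3 := back_out θ0 θ h0 hθ hθ1 z hz C1 B hC1 hB x L (hx L) h2 (L - i) (by omega)
      have e : L - (L - i) = i := by omega
      rw [e] at h3
      exact h3

lemma hyp_factor (β : ℝ) (h : Hyp β) : ∃ (p : Polynomial ℤ) (R : List ℂ) (c : ℂ), c ≠ 0 ∧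
    aeval β p = 0 ∧ (∀ z ∈ R, ‖z‖ ≠ 1) ∧ p.map (Int.castRingHom ℂ) = C c * Q R := by
  classical
  obtain ⟨halg, hroot⟩ := h
  have hint : IsIntegral ℚ β := halg.isIntegral
  have hmon := minpoly.monic hint
  obtain ⟨b, hbm, hb⟩ := IsLocalization.integerNormalization_spec (nonZeroDivisors ℤ)
    (minpoly ℚ β)
  set p : Polynomial ℤ := IsLocalization.integerNormalization (nonZeroDivisors ℤ) (minpoly ℚ β)
  have hb0 : b ≠ 0 := nonZeroDivisors.ne_zero hbm
  set P : Polynomial ℂ := (minpoly ℚ β).map (algebraMap ℚ ℂ) with hP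
  have hPm : P.Monic := hmon.map _
  have hprod : P = (P.roots.map fun a => X - C a).prod :=
    (IsAlgClosed.splits P).eq_prod_roots_of_monic hPm
  obtain ⟨R, hR⟩ : ∃ R : List ℂ, (R : Multiset ℂ) = P.roots :=
    ⟨P.roots.toList, Multiset.coe_toList _⟩
  refine ⟨p, R, (b : ℂ), by exact_mod_cast hb0, ?_, fun z hz => ?_, ?_⟩
  · have h1 : aeval β p = aeval β (p.map (algebraMap ℤ ℚ)) := by
      rw [aeval_map_algebraMap]
    rw [h1, hb]
    rw [map_zsmul, minpoly.aeval, smul_zero]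
  · have hz' : z ∈ P.roots := by
      rw [← hR]
      exact hz
    apply hroot z
    rw [mem_roots hPm.ne_zero, IsRoot.def, hP, eval_map] at hz'
    rw [aeval_def]
    exact hz'
  · have h1 : p.map (Int.castRingHom ℂ) = (p.map (algebraMap ℤ ℚ)).map (algebraMap ℚ ℂ) := by
      rw [Polynomial.map_map]
      congr 1
    rw [h1, hb]
    have h2 : (b • minpoly ℚ β).map (algebraMap ℚ ℂ) = C (b : ℂ) * P := by
      rw [zsmul_eq_mul, Polynomial.map_mul, Polynomial.map_intCast]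
      congr 1
    rw [h2]
    congr 1
    conv_lhs => rw [hprod, ← hR]
    rfl

end Pool.Agent.R739.RP
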