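import Mathlib
import Pool.Agent.R739.RP.Pis

/-!
# Windows of digits: exponential closeness in the middle
-/

set_option autoImplicit false

open Finset Filter Topology Polynomial
open scoped Real

namespace Pool.Agent.R739.RP

open Pool.Agent.R739.RD

/-- the property of windows of digits -/
def Wn (β ε Cc θ : ℝ) (d : ℕ) : Prop := ∀ (l : ℕ) (u : ℝ), (∀ i < l, dz (β ^ i * u) < ε) →
  dz (β ^ ((l - d) / 2) * u) ≤ Cc * θ ^ ((l - d) / 2)

lemma exists_gap (R : List ℂ) : (∀ z ∈ R, ‖z‖ ≠ 1) →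
    ∃ θ : ℝ, 0 < θ ∧ θ < 1 ∧ ∀ z ∈ R, ‖z‖ ≤ θ ∨ 1 ≤ θ * ‖z‖ := by
  induction R with
  | nil => intro _; exact ⟨1 / 2, by norm_num, by norm_num, by simp⟩
  | cons z R ih =>
    intro h
    obtain ⟨θ, h0, h1, h2⟩ := ih fun w hw => h w (List.mem_cons_of_mem z hw)
    have hz := h z List.mem_cons_self
    obtain ⟨θ', h0', h1', h2'⟩ : ∃ θ' : ℝ, 0 < θ' ∧ θ' < 1 ∧ (‖z‖ ≤ θ' ∨ 1 ≤ θ' * ‖z‖) := by
      rcases lt_or_gt_of_ne hz with hz | hz
      · exact ⟨max ‖z‖ (1 / 2), lt_max_of_lt_right (by norm_num), max_lt hz (by norm_num),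
          Or.inl (le_max_left _ _)⟩
      · have hz0 : 0 < ‖z‖ := by linarith
        refine ⟨1 / ‖z‖, by positivity, by rw [div_lt_one hz0]; exact hz, Or.inr ?_⟩
        rw [one_div, inv_mul_cancel₀ hz0.ne']
    refine ⟨max θ θ', lt_max_of_lt_left h0, max_lt h1 h1', ?_⟩
    have key : ∀ (w : ℂ) (τ : ℝ), τ ≤ max θ θ' → (‖w‖ ≤ τ ∨ 1 ≤ τ * ‖w‖) →
        (‖w‖ ≤ max θ θ' ∨ 1 ≤ max θ θ' * ‖w‖) := by
      intro w τ hτ hw
      rcases hw with hw | hw
      · exact Or.inl (hw.trans hτ)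
      · exact Or.inr (hw.trans (mul_le_mul_of_nonneg_right hτ (norm_nonneg _)))
    intro w hw
    rw [List.mem_cons] at hw
    rcases hw with rfl | hw
    · exact key _ _ (le_max_right _ _) h2'
    · exact key _ _ (le_max_left _ _) (h2 w hw)

/-- a linear recurrence satisfied by the nearest integers -/
lemma rec_zero (p : Polynomial ℤ) (β : ℝ) (hp : aeval β p = 0) (l : ℕ) (u : ℝ)
    (h : ∀ i < l, dz (β ^ i * u) <
      1 / (2 * (∑ m ∈ range (p.natDegree + 1), |(p.coeff m : ℝ)| + 1))) (i : ℕ)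
    (hi : i < l - p.natDegree) :
    ∑ m ∈ range (p.natDegree + 1),
      (p.coeff m : ℝ) * (β ^ (i + m) * u - round (β ^ (i + m) * u)) = 0 := by
  set S : ℝ := ∑ m ∈ range (p.natDegree + 1), |(p.coeff m : ℝ)| with hS
  have hS0 : 0 ≤ S := sum_nonneg fun m _ => abs_nonneg _
  have h1 : ∑ m ∈ range (p.natDegree + 1), (p.coeff m : ℝ) * (β ^ (i + m) * u) = 0 := by
    have h2 : ∑ m ∈ range (p.natDegree + 1), (p.coeff m : ℝ) * (β ^ (i + m) * u) =
        β ^ i * u * aeval β p := by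
      rw [aeval_eq_sum_range, mul_sum]
      refine sum_congr rfl fun m _ => ?_
      rw [pow_add, zsmul_eq_mul]
      ring
    rw [h2, hp, mul_zero]
  set n : ℤ := ∑ m ∈ range (p.natDegree + 1), p.coeff m * round (β ^ (i + m) * u) with hn
  have h3 : ∑ m ∈ range (p.natDegree + 1),
      (p.coeff m : ℝ) * (β ^ (i + m) * u - round (β ^ (i + m) * u)) = -(n : ℝ) := by
    simp only [mul_sub]
    rw [sum_sub_distrib, h1, hn]
    push_cast
    ring
  have h4 : |(n : ℝ)| < 1 := by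
    rw [← abs_neg, ← h3]
    have h5 : |∑ m ∈ range (p.natDegree + 1),
        (p.coeff m : ℝ) * (β ^ (i + m) * u - round (β ^ (i + m) * u))| ≤
        ∑ m ∈ range (p.natDegree + 1), |(p.coeff m : ℝ)| * (1 / (2 * (S + 1))) := by
      refine (abs_sum_le_sum_abs _ _).trans (sum_le_sum fun m hm => ?_)
      rw [abs_mul]
      apply mul_le_mul_of_nonneg_left _ (abs_nonneg _)
      rw [mem_range] at hm
      exact (h (i + m) (by omega)).le
    refine lt_of_le_of_lt h5 ?_
    rw [← sum_mul, ← hS, mul_one_div, div_lt_one (by positivity)]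
    linarith
  have h6 : n = 0 := by
    have h7 : |n| < 1 := by exact_mod_cast h4
    exact Int.abs_lt_one_iff.1 h7
  rw [h3, h6]
  simp

theorem hyp_window (β : ℝ) (h : Hyp β) : ∃ (ε Cc θ : ℝ) (d : ℕ), 0 < ε ∧ ε ≤ 1 / 2 ∧
    1 ≤ Cc ∧ 0 < θ ∧ θ < 1 ∧ Wn β ε Cc θ d := by
  obtain ⟨p, R, c, hc0, hroot, hR, hfac⟩ := hyp_factor β h
  obtain ⟨θ0, h00, h01, h02⟩ := exists_gap R hR
  set θ : ℝ := (θ0 + 1) / 2 with hθ
  have hθθ : θ0 < θ := by rw [hθ]; linarith
  have hθ1 : θ < 1 := by rw [hθ]; linarith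
  have hθpos : 0 < θ := h00.trans hθθ
  obtain ⟨C', hC', hback⟩ := back θ0 θ h00 hθθ hθ1 R h02 0 (1 / 2) le_rfl (by norm_num)
  set S : ℝ := ∑ m ∈ range (p.natDegree + 1), |(p.coeff m : ℝ)| with hS
  have hS0 : 0 ≤ S := sum_nonneg fun m _ => abs_nonneg _
  refine ⟨1 / (2 * (S + 1)), max (2 * C') 1, θ, p.natDegree, by positivity, ?_,
    le_max_right _ _, hθpos, hθ1, ?_⟩
  · rw [div_le_div_iff₀ (by positivity) (by norm_num)]
    linarith
  · intro l u hu
    set x : ℕ → ℂ := fun i => ((β ^ i * u - round (β ^ i * u) : ℝ) : ℂ) with hx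
    have hxn : ∀ i, ‖x i‖ = dz (β ^ i * u) := by
      intro i
      rw [hx]
      simp only
      rw [Complex.norm_real, Real.norm_eq_abs]
      rfl
    have hxB : ∀ i, ‖x i‖ ≤ 1 / 2 := fun i => by
      rw [hxn]
      exact dz_le _
    set L : ℕ := l - p.natDegree with hL
    by_cases hL0 : L = 0
    · rw [hL0]
      simp only [Nat.zero_div, pow_zero, mul_one, one_mul]
      have h1 := dz_le u
      have h2 : (1 : ℝ) ≤ max (2 * C') 1 := le_max_right _ _
      linarith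
    have hzero : ∀ i < L, (aeval E (p.map (Int.castRingHom ℂ))) x i = 0 := by
      intro i hi
      have h1 := rec_zero p β hroot l u hu i hi
      have hdeg : (p.map (Int.castRingHom ℂ)).natDegree = p.natDegree :=
        natDegree_map_eq_of_injective (RingHom.injective_int (Int.castRingHom ℂ)) p
      rw [aeval_eq_sum_range, hdeg, LinearMap.sum_apply, Finset.sum_apply]
      have h2 : ∀ m ∈ range (p.natDegree + 1),
          (((p.map (Int.castRingHom ℂ)).coeff m • E ^ m) x) i =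
          (((p.coeff m : ℝ) * (β ^ (i + m) * u - round (β ^ (i + m) * u)) : ℝ) : ℂ) := by
        intro m _
        rw [LinearMap.smul_apply, Pi.smul_apply, E_pow, coeff_map, smul_eq_mul, hx]
        push_cast
        rfl
      rw [sum_congr rfl h2]
      rw [← Complex.ofReal_sum, h1]
      simp
    have hs1 : ∀ i < L, ‖aeval E (Q R) x i‖ ≤ 0 * (θ ^ i + θ ^ (L - i)) := by
      intro i hi
      have h1 := hzero i hi
      rw [hfac, map_mul, Module.End.mul_apply, aeval_C] at h1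
      have h2 : c * (aeval E (Q R) x i) = 0 := h1
      rcases mul_eq_zero.1 h2 with h3 | h3
      · exact absurd h3 hc0
      · rw [h3]
        simp
    have h5 := hback x L hxB hs1 (L / 2) (by omega)
    rw [hxn] at h5
    refine h5.trans ?_
    have h6 : θ ^ (L - L / 2) ≤ θ ^ (L / 2) :=
      pow_le_pow_of_le_one hθpos.le hθ1.le (by omega)
    have h7 : 0 ≤ θ ^ (L / 2) := by positivity
    calc C' * (θ ^ (L / 2) + θ ^ (L - L / 2)) ≤ C' * (2 * θ ^ (L / 2)) :=
          mul_le_mul_of_nonneg_left (by linarith) hC'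
      _ = 2 * C' * θ ^ (L / 2) := by ring
      _ ≤ _ := mul_le_mul_of_nonneg_right (le_max_left _ _) h7

end Pool.Agent.R739.RP
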