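import Mathlib
import Pool.Agent.R739.RP.PWin
import Pool.Agent.R739.RD.Mom

/-!
# Bad windows of the numbers `κ e ^ n - θ`, and second moments
-/

set_option autoImplicit false

open Finset Filter Topology MeasureTheory
open scoped Real

namespace Pool.Agent.R739.RP

open Pool.Agent.R739.RD Pool.Agent.H534R3.UDist

open Classical in
/-- the integers `n` such that the window `(J - l, J]` of digits of `κ e ^ n - τ` is bad -/
noncomputable def bad (β ε κ τ : ℝ) (X N J l : ℕ) : Finset ℕ :=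
  (Ioc X N).filter fun n : ℕ =>
    ∀ i < l, dz (β ^ i * ((κ * Real.exp n - τ) / β ^ J)) < ε

theorem card_bad : ∃ A : ℝ, 0 < A ∧ ∀ (β ε Cc θ : ℝ) (d : ℕ), 1 < β → 0 < θ → Wn β ε Cc θ d →
    ∀ κ : ℝ, κ ≠ 0 → ∀ δ : ℝ, 0 < δ → δ ≤ 1 →
    ∀ (X N J l : ℕ), 1 ≤ N → l ≤ J → Cc * θ ^ ((l - d) / 2) < Real.exp (-(δ * N)) →
    J * Real.log β ≤ X → ∀ τ : ℝ,
    ((bad β ε κ τ X N J l).card : ℝ) ≤
      A / δ * ((N : ℝ) ^ (1 - δ ^ 2 / 1280) + (|Real.log (|κ|)| + 1)) := by
  classical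
  obtain ⟨A, hA, harc⟩ := Pool.Agent.TH373.EN.arc
  refine ⟨A, hA, ?_⟩
  intro β ε Cc θ d hβ hθ hW κ hκ δ hδ hδ1 X N J l hN hlJ hCl hJX τ
  have hβ0 : 0 < β := by linarith
  have hlog : 0 ≤ Real.log β := Real.log_nonneg hβ.le
  set h : ℕ := (l - d) / 2 with hh
  have hhl : h ≤ l := by omega
  obtain ⟨J', hJ'⟩ : ∃ J' : ℕ, J = J' + h := ⟨J - h, by omega⟩
  set n0 : ℕ := ⌊(J' : ℝ) * Real.log β⌋₊ with hn0
  have hy0 : 0 ≤ (J' : ℝ) * Real.log β := mul_nonneg (Nat.cast_nonneg J') hlog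
  have hn0a : (n0 : ℝ) ≤ J' * Real.log β := Nat.floor_le hy0
  have hn0b : (J' : ℝ) * Real.log β < n0 + 1 := Nat.lt_floor_add_one _
  have hJJ : (J' : ℝ) * Real.log β ≤ J * Real.log β := by
    apply mul_le_mul_of_nonneg_right _ hlog
    have : J' ≤ J := by omega
    exact_mod_cast this
  have hn0X : n0 ≤ X := by
    have : (n0 : ℝ) ≤ X := (hn0a.trans hJJ).trans hJX
    exact_mod_cast this
  set ξ : ℝ := κ * Real.exp n0 / β ^ J' with hξ
  have hbJ : (0 : ℝ) < β ^ J' := by positivity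
  have hξ0 : ξ ≠ 0 := div_ne_zero (mul_ne_zero hκ (Real.exp_pos _).ne') hbJ.ne'
  have hlogξ : |Real.log (|ξ|)| ≤ |Real.log (|κ|)| + 1 := by
    have e1 : |ξ| = |κ| * Real.exp n0 / β ^ J' := by
      rw [hξ, abs_div, abs_mul, abs_of_pos (Real.exp_pos _), abs_of_pos hbJ]
    have e2 : Real.log (|ξ|) = Real.log (|κ|) + (n0 - J' * Real.log β) := by
      rw [e1, Real.log_div (mul_ne_zero (abs_ne_zero.2 hκ) (Real.exp_pos _).ne') hbJ.ne',
        Real.log_mul (abs_ne_zero.2 hκ) (Real.exp_pos _).ne', Real.log_exp, Real.log_pow]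
      ring
    rw [e2]
    refine (abs_add_le _ _).trans ?_
    have : |(n0 : ℝ) - J' * Real.log β| ≤ 1 := by
      rw [abs_le]
      constructor <;> linarith
    linarith
  have h1 := harc δ hδ hδ1 N hN ξ (τ / β ^ J') hξ0
  have h2 : (bad β ε κ τ X N J l).card ≤
      ((Icc 1 N).filter (fun n : ℕ => Pool.Agent.TH373.EN.Bad δ ξ (τ / β ^ J') n)).card := by
    apply Finset.card_le_card_of_injOn (fun n => n - n0)
    · intro n hn
      have hn' : n ∈ (Ioc X N).filter fun n : ℕ =>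
        ∀ i < l, dz (β ^ i * ((κ * Real.exp n - τ) / β ^ J)) < ε := hn
      rw [mem_filter, mem_Ioc] at hn'
      obtain ⟨⟨hX, hNn⟩, hw⟩ := hn'
      have hnn : n0 ≤ n := by omega
      rw [mem_coe, mem_filter, mem_Icc]
      have g1 : 1 ≤ n - n0 := by omega
      have g2 : n - n0 ≤ N := by omega
      refine ⟨⟨g1, g2⟩, ?_⟩
      have hw2 := hW l _ hw
      rw [← hh] at hw2
      have e0 : β ^ h * ((κ * Real.exp n - τ) / β ^ J) = (κ * Real.exp n - τ) / β ^ J' := by
        rw [hJ', pow_add]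
        have : β ^ h ≠ 0 := by positivity
        have : β ^ J' ≠ 0 := by positivity
        field_simp
      rw [e0] at hw2
      refine ⟨round ((κ * Real.exp n - τ) / β ^ J'), 1, le_refl 1, ?_, ?_⟩
      · rw [Nat.cast_one]
        apply Real.one_le_exp
        positivity
      · have e3 : ξ * Real.exp ((n - n0 : ℕ) : ℝ) - τ / β ^ J' =
            (κ * Real.exp n - τ) / β ^ J' := by
          rw [hξ, Nat.cast_sub hnn, Real.exp_sub]
          have := (Real.exp_pos (n0 : ℝ)).ne'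
          field_simp
        rw [e3, Nat.cast_one, div_one]
        have e4 : dz ((κ * Real.exp n - τ) / β ^ J') =
            |(κ * Real.exp n - τ) / β ^ J' - round ((κ * Real.exp n - τ) / β ^ J')| := rfl
        rw [← e4]
        refine lt_of_le_of_lt hw2 (lt_of_lt_of_le hCl ?_)
        apply Real.exp_le_exp.2
        apply neg_le_neg
        apply mul_le_mul_of_nonneg_left _ hδ.le
        exact_mod_cast g2
    · intro n hn m hm hnm
      have hn' : n ∈ (Ioc X N).filter fun n : ℕ =>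
        ∀ i < l, dz (β ^ i * ((κ * Real.exp n - τ) / β ^ J)) < ε := hn
      have hm' : m ∈ (Ioc X N).filter fun n : ℕ =>
        ∀ i < l, dz (β ^ i * ((κ * Real.exp n - τ) / β ^ J)) < ε := hm
      rw [mem_filter, mem_Ioc] at hn' hm'
      simp only at hnm
      omega
  have h3 : ((bad β ε κ τ X N J l).card : ℝ) ≤ A / δ * ((N : ℝ) ^ (1 - δ ^ 2 / 1280) +
      |Real.log (|ξ|)|) := by
    refine le_trans (Nat.cast_le.2 h2) ?_
    convert h1 using 2
  refine h3.trans ?_
  apply mul_le_mul_of_nonneg_left _ (by positivity)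
  linarith

/-- the decay of the characteristic function of `ξ` along the digits in base `β` -/
def Dec {Ω : Type} [MeasurableSpace Ω] (P : Measure Ω) (ξ : Ω → ℝ) (β ε lam ρ : ℝ) : Prop :=
  ∀ (t : ℝ) (S : Finset ℕ), (∀ j ∈ S, ε ≤ dz (lam * t / β ^ (j + 1))) →
    ‖∫ ω, ee (t * ξ ω) ∂P‖ ≤ ρ ^ S.card

lemma small_of_good {Ω : Type} [MeasurableSpace Ω] {P : Measure Ω} {ξ : Ω → ℝ} {β ε : ℝ}
    {lam ρ : ℝ} (hD : Dec P ξ β ε lam ρ) (hβ : 1 < β) (a : ℝ) (X N K l : ℕ) (n m : ℕ)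
    (hn : n ∈ Ioc X N)
    (h : ∀ k < K, n ∉ bad β ε (lam * a) (lam * a * Real.exp m) X N ((k + 1) * l) l) :
    ‖∫ ω, ee (a * (Real.exp n - Real.exp m) * ξ ω) ∂P‖ ≤ ρ ^ K := by
  classical
  have hβ0 : 0 < β := by linarith
  have h1 : ∀ k : ℕ, ∃ i : ℕ, k < K → i < l ∧ ε ≤ dz (β ^ i *
      ((lam * a * Real.exp n - lam * a * Real.exp m) / β ^ ((k + 1) * l))) := by
    intro k
    by_cases hk : k < K
    · have h2 := h k hk
      rw [bad, mem_filter] at h2
      push Not at h2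
      obtain ⟨i, hi, hi2⟩ := h2 hn
      exact ⟨i, fun _ => ⟨hi, hi2⟩⟩
    · exact ⟨0, fun h => absurd h hk⟩
  choose i hi using h1
  set j : ℕ → ℕ := fun k => (k + 1) * l - i k - 1 with hj
  have hj1 : ∀ k < K, k * l ≤ j k ∧ j k < (k + 1) * l ∧ j k + 1 + i k = (k + 1) * l := by
    intro k hk
    have h3 := (hi k hk).1
    have e : (k + 1) * l = k * l + l := by ring
    simp only [hj]
    omega
  have hinj : Set.InjOn j (range K : Finset ℕ) := by
    intro k hk k' hk' he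
    rw [mem_coe, mem_range] at hk hk'
    have h3 := hj1 k hk
    have h4 := hj1 k' hk'
    rw [he] at h3
    by_contra hne
    rcases Nat.lt_or_gt_of_ne hne with hlt | hlt
    · have : (k + 1) * l ≤ k' * l := Nat.mul_le_mul_right l hlt
      omega
    · have : (k' + 1) * l ≤ k * l := Nat.mul_le_mul_right l hlt
      omega
  have hcard : ((range K).image j).card = K := by
    rw [card_image_of_injOn hinj, card_range]
  have h5 := hD (a * (Real.exp n - Real.exp m)) ((range K).image j) ?_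
  · rwa [hcard] at h5
  · intro q hq
    rw [mem_image] at hq
    obtain ⟨k, hk, rfl⟩ := hq
    rw [mem_range] at hk
    have h6 := (hi k hk).2
    have h7 := (hj1 k hk).2.2
    have e : lam * (a * (Real.exp n - Real.exp m)) / β ^ (j k + 1) = β ^ i k *
      ((lam * a * Real.exp n - lam * a * Real.exp m) / β ^ ((k + 1) * l)) := by
      rw [← h7, pow_add β (j k + 1) (i k)]
      have h8 : β ^ (j k + 1) ≠ 0 := by positivity
      have h9 : β ^ i k ≠ 0 := by positivity
      field_simp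
    rw [e]
    exact h6

theorem moment : ∃ A : ℝ, 0 < A ∧ ∀ {Ω : Type} [MeasurableSpace Ω] (P : Measure Ω)
    [IsProbabilityMeasure P] (ξ : Ω → ℝ), Measurable ξ → ∀ (β ε lam ρ Cc θ : ℝ) (d : ℕ), 1 < β →
    0 < θ → Wn β ε Cc θ d → lam ≠ 0 →
    0 ≤ ρ → Dec P ξ β ε lam ρ → ∀ (z : ℕ → ℂ), (∀ n, ‖z n‖ ≤ 1) → ∀ a : ℝ, a ≠ 0 → ∀ δ : ℝ, 0 < δ →
    δ ≤ 1 → ∀ (X N K l : ℕ), 1 ≤ N → Cc * θ ^ ((l - d) / 2) < Real.exp (-(δ * N)) →
    K * l * Real.log β ≤ X →
    ∫ ω, ‖TT z a X N (ξ ω)‖ ^ 2 ∂P ≤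
      N * (N * ρ ^ K + K * (A / δ * ((N : ℝ) ^ (1 - δ ^ 2 / 1280) +
        (|Real.log (|lam * a|)| + 1)))) := by
  classical
  obtain ⟨A, hA, hcard⟩ := card_bad
  refine ⟨A, hA, ?_⟩
  intro Ω _ P _ ξ hξ β ε lam ρ Cc θ d hβ hθ hW hlam hρ hD z hz a ha δ hδ hδ1 X N K l hN hCl hKl
  refine (mom_le hξ z hz a X N).trans ?_
  set B : ℝ := A / δ * ((N : ℝ) ^ (1 - δ ^ 2 / 1280) + (|Real.log (|lam * a|)| + 1)) with hB
  have hβ0 : 0 < β := by linarith
  have hlog : 0 ≤ Real.log β := Real.log_nonneg hβ.le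
  have hB0 : 0 ≤ B := by positivity
  have hcI : ((Ioc X N).card : ℝ) ≤ N := by
    rw [Nat.card_Ioc]
    exact_mod_cast Nat.sub_le N X
  have hinner : ∀ m ∈ Ioc X N, ∑ n ∈ Ioc X N,
      ‖∫ ω, ee (a * (Real.exp n - Real.exp m) * ξ ω) ∂P‖ ≤ N * ρ ^ K + K * B := by
    intro m _
    set U : Finset ℕ := (range K).biUnion fun k =>
      bad β ε (lam * a) (lam * a * Real.exp m) X N ((k + 1) * l) l with hU
    have hUc : (U.card : ℝ) ≤ K * B := by
      have h1 : U.card ≤ ∑ k ∈ range K,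
        (bad β ε (lam * a) (lam * a * Real.exp m) X N ((k + 1) * l) l).card := card_biUnion_le
      have h2 : (U.card : ℝ) ≤ ∑ k ∈ range K,
        ((bad β ε (lam * a) (lam * a * Real.exp m) X N ((k + 1) * l) l).card : ℝ) := by
        exact_mod_cast h1
      refine h2.trans ?_
      calc _ ≤ ∑ k ∈ range K, B := by
            refine sum_le_sum fun k hk => ?_
            rw [mem_range] at hk
            refine hcard β ε Cc θ d hβ hθ hW (lam * a) (mul_ne_zero hlam ha) δ hδ hδ1 X N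
              ((k + 1) * l) l hN (Nat.le_mul_of_pos_left l (Nat.succ_pos k)) hCl ?_ _
            refine le_trans ?_ hKl
            apply mul_le_mul_of_nonneg_right _ hlog
            push_cast
            apply mul_le_mul_of_nonneg_right _ (Nat.cast_nonneg l)
            have : k + 1 ≤ K := hk
            exact_mod_cast this
        _ = K * B := by simp
    have hρK : 0 ≤ ρ ^ K := pow_nonneg hρ K
    calc ∑ n ∈ Ioc X N, ‖∫ ω, ee (a * (Real.exp n - Real.exp m) * ξ ω) ∂P‖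
        ≤ ∑ n ∈ Ioc X N, (ρ ^ K + if n ∈ U then (1 : ℝ) else 0) := by
          refine sum_le_sum fun n hn => ?_
          by_cases hnU : n ∈ U
          · rw [if_pos hnU]
            have := norm_int_le P (fun ω => a * (Real.exp n - Real.exp m) * ξ ω)
            linarith
          · rw [if_neg hnU, add_zero]
            apply small_of_good hD hβ a X N K l n m hn
            intro k hk hmem
            apply hnU
            rw [hU, mem_biUnion]
            exact ⟨k, mem_range.2 hk, hmem⟩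
      _ = (Ioc X N).card * ρ ^ K + ∑ n ∈ Ioc X N, (if n ∈ U then (1 : ℝ) else 0) := by
          rw [sum_add_distrib, sum_const, nsmul_eq_mul]
      _ ≤ N * ρ ^ K + K * B := by
          apply add_le_add
          · exact mul_le_mul_of_nonneg_right hcI hρK
          · refine le_trans ?_ hUc
            rw [← sum_filter, sum_const, nsmul_eq_mul, mul_one]
            have : ((Ioc X N).filter fun n => n ∈ U) ⊆ U := fun x hx => (mem_filter.1 hx).2
            exact_mod_cast card_le_card this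
  calc ∑ m ∈ Ioc X N, ∑ n ∈ Ioc X N, ‖∫ ω, ee (a * (Real.exp n - Real.exp m) * ξ ω) ∂P‖
      ≤ ∑ m ∈ Ioc X N, (N * ρ ^ K + K * B) := sum_le_sum hinner
    _ = (Ioc X N).card * (N * ρ ^ K + K * B) := by rw [sum_const, nsmul_eq_mul]
    _ ≤ N * (N * ρ ^ K + K * B) := by
        apply mul_le_mul_of_nonneg_right hcI
        positivity

end Pool.Agent.R739.RP
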