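import Mathlib
import Pool.Agent.R739.RP.PDig
import Pool.Agent.R739.RP.PBlk
import Pool.Agent.R739.RD.Fin

/-!
# Equidistribution of `η ξ e ^ n` for random numbers `ξ`
-/

set_option autoImplicit false

open Finset Filter Topology MeasureTheory ProbabilityTheory
open scoped Real

namespace Pool.Agent.R739.RP

open Pool.Agent.R739.RD Pool.Agent.H534R3.UDist

lemma summable_digits (β : ℝ) (hβ : 1 < β) (M : ℝ) (d : ℕ → ℝ) (hd : ∀ j, |d j| ≤ M) :
    Summable fun j => d j / β ^ (j + 1) := by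
  have hb0 : 0 < β := by linarith
  have h1 : Summable fun j : ℕ => M * (1 / β) ^ j := by
    refine (summable_geometric_of_lt_one (by positivity) ?_).mul_left M
    rw [div_lt_one hb0]
    exact hβ
  have hM : 0 ≤ M := (abs_nonneg _).trans (hd 0)
  refine Summable.of_norm_bounded h1 fun j => ?_
  rw [Real.norm_eq_abs, abs_div, abs_of_pos (by positivity : (0 : ℝ) < β ^ (j + 1)),
    one_div_pow, mul_one_div]
  apply div_le_div₀ hM (hd j) (by positivity)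
  exact pow_le_pow_right₀ hβ.le (by omega)

theorem main_int {Ω : Type} [MeasurableSpace Ω] (P : Measure Ω) [IsProbabilityMeasure P]
    (β : ℝ) (hβ : 1 < β) (hH : Hyp β) (M : ℕ) (c : ℝ) (hc : 0 < c) (D : ℕ → Ω → ℤ)
    (hD : ∀ j, Measurable (D j))
    (hI : iIndepFun D P) (hM : ∀ j ω, |D j ω| ≤ M) (hcD : ∀ j d, P.real {ω | D j ω = d} ≤ 1 - c) :
    Conclusion P fun ω => ∑' j, (D j ω : ℝ) / β ^ (j + 1) := by
  have hsum : ∀ ω, Summable fun j => (D j ω : ℝ) / β ^ (j + 1) := fun ω =>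
    summable_digits β hβ M _ fun j => by exact_mod_cast hM j ω
  have hs : ∀ ω, Tendsto (fun n => ∑ j ∈ range n, (D j ω : ℝ) / β ^ (j + 1)) atTop
      (𝓝 (∑' j, (D j ω : ℝ) / β ^ (j + 1))) := fun ω => (hsum ω).hasSum.tendsto_sum_nat
  have hmeas : ∀ n, Measurable fun ω => ∑ j ∈ range n, (D j ω : ℝ) / β ^ (j + 1) := fun n =>
    Finset.measurable_fun_sum _ fun j _ =>
      ((measurable_from_top (f := fun n : ℤ => (n : ℝ))).comp (hD j)).div_const _
  have hξ : Measurable fun ω => ∑' j, (D j ω : ℝ) / β ^ (j + 1) :=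
    measurable_of_tendsto_metrizable hmeas (tendsto_pi_nhds.2 hs)
  obtain ⟨ε, Cc, θ, d, hε, hε2, hCc, hθ0, hθ1, hW⟩ := hyp_window β hH
  obtain ⟨lam, ρ, hlam, hρ0, hρ1, hdec⟩ := dec_int P β ε hε hε2 M c hc D hD hI hM hcD _ hs
  exact conclusion_of P _ fun z hz a ha =>
    ae_weyl P _ hξ β ε lam ρ Cc θ d hβ hCc hθ0 hθ1 hW hlam hρ0 hρ1 hdec z hz a ha

theorem main_real {Ω : Type} [MeasurableSpace Ω] (P : Measure Ω) [IsProbabilityMeasure P]
    (β : ℝ) (hβ : 1 < β) (hH : Hyp β) (F : Finset ℝ) (D : ℕ → Ω → ℝ) (hD : ∀ j, Measurable (D j))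
    (hI : iIndepFun D P) (hid : ∀ j, IdentDistrib (D j) (D 0) P P) (hF : ∀ j ω, D j ω ∈ F)
    (hne : ∀ d, P.real {ω | D 0 ω = d} < 1) :
    Conclusion P fun ω => ∑' j, D j ω / β ^ (j + 1) := by
  obtain ⟨M, hM⟩ : ∃ M : ℝ, ∀ x ∈ F, |x| ≤ M := by
    refine ⟨∑ x ∈ F, |x|, fun x hx => ?_⟩
    exact Finset.single_le_sum (f := fun x => |x|) (fun y _ => abs_nonneg y) hx
  have hsum : ∀ ω, Summable fun j => D j ω / β ^ (j + 1) := fun ω =>
    summable_digits β hβ M _ fun j => hM _ (hF j ω)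
  have hs : ∀ ω, Tendsto (fun n => ∑ j ∈ range n, D j ω / β ^ (j + 1)) atTop
      (𝓝 (∑' j, D j ω / β ^ (j + 1))) := fun ω => (hsum ω).hasSum.tendsto_sum_nat
  have hmeas : ∀ n, Measurable fun ω => ∑ j ∈ range n, D j ω / β ^ (j + 1) := fun n =>
    Finset.measurable_fun_sum _ fun j _ => (hD j).div_const _
  have hξ : Measurable fun ω => ∑' j, D j ω / β ^ (j + 1) :=
    measurable_of_tendsto_metrizable hmeas (tendsto_pi_nhds.2 hs)
  obtain ⟨ε, Cc, θ, d, hε, hε2, hCc, hθ0, hθ1, hW⟩ := hyp_window β hH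
  obtain ⟨lam, ρ, hlam, hρ0, hρ1, hdec⟩ := dec_real P β ε hε hε2 F D hD hI hid hF hne _ hs
  exact conclusion_of P _ fun z hz a ha =>
    ae_weyl P _ hξ β ε lam ρ Cc θ d hβ hCc hθ0 hθ1 hW hlam hρ0 hρ1 hdec z hz a ha

end Pool.Agent.R739.RP
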